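import Pool.Agent.W901.GF.Final

/-!
# Family equivalence of context-free grammars is undecidable

The conjecture is true, in a strong form: one of the two grammars can be fixed, both grammars are
linear, and one of the two inclusions between the families is known to hold.

Idea. If `h` is a coding which maps a regular language `R` into `L(G)`, then `R` is in the family
of `G` (triple construction), and this remains so for unions with members of the family. So a
right-linear part of a grammar may be added or deleted without changing the family as soon as the
words it produces are produced by the remaining grammar. Short marker words force the coding in the
definition of interpretations to be the identity, so the families are equal only if the languages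
are. The words which are not halting computations of a universal counter machine form a linear
language, and the first configuration is described by a right-linear part.
-/

set_option autoImplicit false

namespace Pool.Agent.Results.MP_3cd25e_lc.FixedLinearGrammar

open Pool.Agent.W901.GF

/-- There is a linear context-free grammar `G₀` with the following property. Each algorithm `f`
for pairs of grammars is wrong for a pair `(G₀, G)`, where `G` is a linear context-free grammar
whose grammatical family is contained in that of `G₀`: its answer is not yes exactly if the two
grammars are family equivalent. -/
theorem result : ∃ G₀ : Gram, G₀.IsCFG ∧ G₀.IsLinear ∧
    ∀ f : Gram × Gram → Bool, Computable f →
      ∃ G : Gram, G.IsCFG ∧ G.IsLinear ∧ family G ⊆ family G₀ ∧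
        ¬ (f (G₀, G) = true ↔ family G₀ = family G) :=
  main

end Pool.Agent.Results.MP_3cd25e_lc.FixedLinearGrammar
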